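import Pool.Agent.H65.AP.Targets

/-!
# EDW: small neighbourhoods of points of the edge are not disconnected by the crack (MP_0ee698_an)
-/

open MeasureTheory Set Filter Topology Metric
open scoped ENNReal NNReal ContDiff RealInnerProductSpace

namespace Pool.Agent.H60.AP

open Pool.Agent.H94.IC Pool.Agent.H94.AC Pool.Agent.H92.CK Pool.Agent.H65.AP

theorem lin_coord (k : Fin 3) : IsLinearMap ℝ (fun y : E => y k) :=
  ((EuclideanSpace.proj k : E →L[ℝ] ℝ) : E →ₗ[ℝ] ℝ).isLinear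

theorem ball_minus_half (a : ℝ) (ha : 0 < a) :
    IsPreconnected (ball (0 : E) a \ {y : E | y 2 = 0 ∧ 0 ≤ y 0}) := by
  have hpt : ∀ s t : ℝ, |s| = 1 → |t| = 1 →
      (!₂[s * (a / 2), 0, t * (a / 2)] : E) ∈ ball (0 : E) a := by
    intro s t hs ht
    rw [mem_ball_zero_iff]
    apply lt_of_pow_lt_pow_left₀ 2 ha.le
    rw [EuclideanSpace.norm_sq_eq, Fin.sum_univ_three]
    have hs2 : s ^ 2 = 1 := by rw [← sq_abs, hs, one_pow]
    have ht2 : t ^ 2 = 1 := by rw [← sq_abs, ht, one_pow]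
    have e : ‖(!₂[s * (a / 2), 0, t * (a / 2)] : E) 0‖ ^ 2 +
        ‖(!₂[s * (a / 2), 0, t * (a / 2)] : E) 1‖ ^ 2 +
        ‖(!₂[s * (a / 2), 0, t * (a / 2)] : E) 2‖ ^ 2 =
        s ^ 2 * (a / 2) ^ 2 + t ^ 2 * (a / 2) ^ 2 := by
      simp [mul_pow, abs_of_pos ha]
    rw [e, hs2, ht2]
    nlinarith
  have hA2 : IsPreconnected (ball (0 : E) a ∩ {y : E | 0 < y 2}) :=
    ((convex_ball 0 a).inter (convex_halfSpace_gt (lin_coord 2) 0)).isPreconnected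
  have hA3 : IsPreconnected (ball (0 : E) a ∩ {y : E | y 0 < 0}) :=
    ((convex_ball 0 a).inter (convex_halfSpace_lt (lin_coord 0) 0)).isPreconnected
  have hA4 : IsPreconnected (ball (0 : E) a ∩ {y : E | y 2 < 0}) :=
    ((convex_ball 0 a).inter (convex_halfSpace_lt (lin_coord 2) 0)).isPreconnected
  have h34 : IsPreconnected (ball (0 : E) a ∩ {y : E | y 0 < 0} ∪ ball (0 : E) a ∩ {y : E | y 2 < 0}) :=
    IsPreconnected.union (!₂[(-1) * (a / 2), 0, (-1) * (a / 2)] : E)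
    ⟨hpt (-1) (-1) (by simp) (by simp), by simp; exact ha⟩
    ⟨hpt (-1) (-1) (by simp) (by simp), by simp; exact ha⟩ hA3 hA4
  have hall : IsPreconnected ((ball (0 : E) a ∩ {y : E | 0 < y 2}) ∪
      (ball (0 : E) a ∩ {y : E | y 0 < 0} ∪ ball (0 : E) a ∩ {y : E | y 2 < 0})) :=
    IsPreconnected.union (!₂[(-1) * (a / 2), 0, 1 * (a / 2)] : E)
    ⟨hpt (-1) 1 (by simp) (by simp), by simp; exact ha⟩
    (Or.inl ⟨hpt (-1) 1 (by simp) (by simp), by simp; exact ha⟩) hA2 h34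
  have he : ball (0 : E) a \ {y : E | y 2 = 0 ∧ 0 ≤ y 0} =
      (ball (0 : E) a ∩ {y : E | 0 < y 2}) ∪
      (ball (0 : E) a ∩ {y : E | y 0 < 0} ∪ ball (0 : E) a ∩ {y : E | y 2 < 0}) := by
    ext y
    constructor
    · rintro ⟨h1, h2⟩
      by_cases h3 : y 2 = 0
      · exact Or.inr (Or.inl ⟨h1, not_le.1 fun h => h2 ⟨h3, h⟩⟩)
      · rcases lt_or_gt_of_ne h3 with h5 | h5
        · exact Or.inr (Or.inr ⟨h1, h5⟩)
        · exact Or.inl ⟨h1, h5⟩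
    · rintro (⟨h1, h2⟩ | (⟨h1, h2⟩ | ⟨h1, h2⟩))
      · exact ⟨h1, fun h => (ne_of_gt h2) h.1⟩
      · exact ⟨h1, fun h => (not_le.2 h2) h.2⟩
      · exact ⟨h1, fun h => (ne_of_lt h2) h.1⟩
  rw [he]
  exact hall

theorem pf_EDW : T_EDW := by
  intro Ω S x _ hx N hN
  obtain ⟨-, Ψ, hxs, hx0, hsm, hsms, hfl⟩ := hx
  have h0t : (0 : E) ∈ Ψ.target := hx0 ▸ Ψ.map_source hxs
  have hs0 : Ψ.symm 0 = x := by rw [← hx0, Ψ.left_inv hxs]
  have hcont : ContinuousAt Ψ.symm 0 := Ψ.symm.continuousAt h0t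
  have h1 : Ψ.symm ⁻¹' N ∈ 𝓝 (0 : E) := hcont (by rw [hs0]; exact hN)
  have h2 : Ψ.target ∈ 𝓝 (0 : E) := Ψ.open_target.mem_nhds h0t
  obtain ⟨a, ha, hab⟩ := Metric.mem_nhds_iff.1 (inter_mem h1 h2)
  have hbt : ball (0 : E) a ⊆ Ψ.target := fun w hw => (hab hw).2
  refine ⟨Ψ.symm '' ball 0 a, Ψ.symm.isOpen_image_of_subset_source isOpen_ball hbt,
    ⟨0, mem_ball_self ha, hs0⟩, ?_, ?_, ?_⟩
  · rintro _ ⟨w, hw, rfl⟩
    exact (hab hw).1
  · exact (convex_ball (0 : E) a).isPreconnected.image _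
      (Ψ.symm.continuousOn.mono fun w hw => hbt hw)
  · have he : Ψ.symm '' ball 0 a \ S =
        Ψ.symm '' (ball (0 : E) a \ {y : E | y 2 = 0 ∧ 0 ≤ y 0}) := by
      ext z
      constructor
      · rintro ⟨⟨w, hw, rfl⟩, h3⟩
        refine ⟨w, ⟨hw, fun h4 => h3 ?_⟩, rfl⟩
        rw [hfl _ (Ψ.map_target (hbt hw)), Ψ.right_inv (hbt hw)]
        exact ⟨h4.1, fun _ => h4.2⟩
      · rintro ⟨w, ⟨hw, h4⟩, rfl⟩
        refine ⟨⟨w, hw, rfl⟩, fun h3 => h4 ?_⟩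
        rw [hfl _ (Ψ.map_target (hbt hw)), Ψ.right_inv (hbt hw)] at h3
        exact ⟨h3.1, h3.2 trivial⟩
    rw [he]
    exact (ball_minus_half a ha).image _ (Ψ.symm.continuousOn.mono fun w hw => hbt hw.1)

end Pool.Agent.H60.AP
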