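import Pool.Agent.H65.AP.Targets

/-!
# PFA: the profiles `curl A . ν` (MP_0ee698_an)
-/

open MeasureTheory Set Filter Topology Metric
open scoped ENNReal NNReal ContDiff RealInnerProductSpace

namespace Pool.Agent.H60.AP

open Pool.Agent.H94.IC Pool.Agent.H94.AC Pool.Agent.H92.CK Pool.Agent.H65.AP

theorem curl_congr {A B : E → E} {x : E} (h : A =ᶠ[𝓝 x] B) : curl A x = curl B x := by
  unfold curl
  rw [h.fderiv_eq]

theorem pf_PFA (hCRL : T_CRL) : T_PFA := by
  intro Ω σ ν A hD hS hA hcA
  obtain ⟨hc1, hc2, hc3⟩ := hCRL.1 A hA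
  have hcc : HasCompactSupport (curl A) :=
    (show IsCompact (tsupport A) from hcA).of_isClosed_subset (isClosed_tsupport _) hc2
  have := hS.fin
  have hcont : Continuous (curl A) := hc1.continuous
  refine ⟨⟨?_, ?_⟩, ?_⟩
  · obtain ⟨C, hC⟩ := hcc.exists_bound_of_continuous hcont
    refine MemLp.of_bound (hcont.aestronglyMeasurable.inner hS.meas) C ?_
    filter_upwards [hS.unit] with x hx
    calc ‖⟪curl A x, ν x⟫‖ ≤ ‖curl A x‖ * ‖ν x‖ := norm_inner_le_norm _ _
      _ ≤ C := by rw [hx, mul_one]; exact hC x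
  · have h1 := hS.gg (curl A) (hc1.of_le (by exact_mod_cast le_top)) hcc
    rw [← h1]
    simp [hc3]
  · intro r η S hr hη hSc hSΩ hSr φ G κ hφ
    have hηA : ContDiff ℝ ∞ (fun y => η y • A y) := hη.sm.smul hA
    obtain ⟨d1, d2, d3⟩ := hCRL.1 (fun y => η y • A y) hηA
    have ht1 : tsupport (fun y => η y • A y) ⊆ tsupport A := by
      refine closure_mono fun x hx => ?_
      rw [Function.mem_support] at hx ⊢
      intro h0
      exact hx (by rw [h0, smul_zero])
    have hX : HasCompactSupport (curl fun y => η y • A y) :=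
      (show IsCompact (tsupport A) from hcA).of_isClosed_subset (isClosed_tsupport _)
        (d2.trans ht1)
    have hdis : Disjoint (tsupport (curl fun y => η y • A y)) S := by
      rw [Set.disjoint_left]
      intro y hy hyS
      have h1 := d2 hy
      have h2 : (fun y => η y • A y) =ᶠ[𝓝 y] 0 := by
        have hyΩ := hSΩ hyS
        have hlt : r / 2 < infDist y (frontier Ω) := by
          have := hSr y hyS
          linarith
        have e1 : ∀ᶠ z in 𝓝 y, r / 2 < infDist z (frontier Ω) :=
          (continuous_infDist_pt _).continuousAt.eventually (lt_mem_nhds hlt)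
        filter_upwards [e1, hD.op.mem_nhds hyΩ] with z hz hzΩ
        rw [hη.zero z hzΩ hz.le, zero_smul]
        rfl
      exact (notMem_tsupport_iff_eventuallyEq.2 h2) h1
    have h3 := hφ.tr _ d1 hX hdis
    have e1 : ∀ x, φ x * dv (curl fun y => η y • A y) x + ⟪G x, curl (fun y => η y • A y) x⟫ =
        ⟪curl (fun y => η y • A y) x, G x⟫ := by
      intro x
      rw [d3 x, mul_zero, zero_add, real_inner_comm]
    simp_rw [e1] at h3
    rw [h3]
    refine integral_congr_ae ?_
    obtain ⟨W, hW1, hW2, hW3⟩ := hη.one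
    have hfr : ∀ᵐ x ∂σ, x ∈ frontier Ω := by
      rw [ae_iff]
      exact hS.supp
    filter_upwards [hfr] with x hx
    have hxW : x ∈ W := by
      apply hW2
      intro hxΩ
      rw [hD.op.frontier_eq] at hx
      exact hx.2 hxΩ
    have h4 : curl (fun y => η y • A y) x = curl A x := by
      refine curl_congr ?_
      filter_upwards [hW1.mem_nhds hxW] with z hz
      rw [hW3 z hz, one_smul]
    rw [h4]
    ring

end Pool.Agent.H60.AP
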