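import Pool.Agent.H65.AP.Targets

/-!
# SEQ: from single values of the parameter to one sequence (MP_0ee698_an)
-/

open MeasureTheory Set Filter Topology Metric
open scoped ENNReal NNReal ContDiff RealInnerProductSpace

namespace Pool.Agent.H60.AP

open Pool.Agent.H94.IC Pool.Agent.H94.AC Pool.Agent.H92.CK Pool.Agent.H65.AP

theorem pf_SEQ : T_SEQ := by
  intro hFIX hRMN Ω σ ν hD hσ
  have h0 : ∀ k : ℕ, ∃ (N : ℕ) (ψ : Fin N → E → ℝ), (∀ i, IsProfile σ (ψ i)) ∧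
      ∀ S S' : Set E, IsCrack Ω S → IsCrack Ω S' → Wide (1 / ((k : ℝ) + 1)) Ω S →
        Same Ω σ ν ψ S S' → S = S' := fun k => hFIX Ω σ ν _ hD hσ (by positivity)
  choose N ψ hψ hN using h0
  refine ⟨fun i => if h : (Nat.unpair i).2 < N (Nat.unpair i).1 then
    ψ (Nat.unpair i).1 ⟨(Nat.unpair i).2, h⟩ else 0,
    fun r => Nat.pair ⌈1 / r⌉₊ (N ⌈1 / r⌉₊), ?_, ?_⟩
  · intro i
    by_cases h : (Nat.unpair i).2 < N (Nat.unpair i).1
    · simp only [dif_pos h]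
      exact hψ _ _
    · simp only [dif_neg h]
      exact ⟨MemLp.zero, by simp⟩
  · intro r hr S S' hS hS' hW hSame
    have hk : 1 / ((⌈1 / r⌉₊ : ℝ) + 1) ≤ r := by
      have h1 : 1 / r ≤ (⌈1 / r⌉₊ : ℝ) := Nat.le_ceil _
      rw [div_le_iff₀ (by positivity)]
      rw [div_le_iff₀ hr] at h1
      nlinarith
    have hW' : Wide (1 / ((⌈1 / r⌉₊ : ℝ) + 1)) Ω S := by
      obtain ⟨h1, h2⟩ := hRMN S r _ hS.cpt.isClosed (by positivity) hk
      exact ⟨hW.1.imp h1 h2, fun x hx => hk.trans (hW.2 x hx)⟩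
    refine hN _ S S' hS hS' hW' ?_
    obtain ⟨u, u', F, F', τ, τ', a1, a2, a3, a4, a5⟩ := hSame
    let e : Fin (N ⌈1 / r⌉₊) → Fin (Nat.pair ⌈1 / r⌉₊ (N ⌈1 / r⌉₊)) := fun j =>
      ⟨Nat.pair ⌈1 / r⌉₊ j.1, Nat.pair_lt_pair_right _ j.2⟩
    have he : ∀ j : Fin (N ⌈1 / r⌉₊),
        (if h : (Nat.unpair (e j).1).2 < N (Nat.unpair (e j).1).1 then
          ψ (Nat.unpair (e j).1).1 ⟨(Nat.unpair (e j).1).2, h⟩ else 0) = ψ ⌈1 / r⌉₊ j := by
      intro j
      have hu : Nat.unpair (e j).1 = (⌈1 / r⌉₊, j.1) := Nat.unpair_pair _ _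
      have key : ∀ p : ℕ × ℕ, p = (⌈1 / r⌉₊, j.1) →
          (if h : p.2 < N p.1 then ψ p.1 ⟨p.2, h⟩ else 0) = ψ ⌈1 / r⌉₊ j := by
        rintro p rfl
        exact dif_pos j.2
      exact key _ hu
    refine ⟨fun j => u (e j), fun j => u' (e j), fun j => F (e j), fun j => F' (e j),
      fun j => τ (e j), fun j => τ' (e j), fun j => ?_, fun j => a2 _, fun j => ?_,
      fun j => a4 _, fun j => a5 _⟩
    · have := a1 (e j)
      simp only [he j] at this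
      exact this
    · have := a3 (e j)
      simp only [he j] at this
      exact this

end Pool.Agent.H60.AP
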